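import Pool.Agent.Y168.MC.Dual
import Pool.Agent.Y166.GM.Cone

/-!
# Normal forms of rational curves: minimal bases of modules over the polynomial ring
-/

set_option autoImplicit false
set_option linter.unusedSectionVars false
set_option linter.deprecated false

namespace Pool.Agent.Y168.MC

open Pool.Agent.Y198.MC Pool.Agent.Y166.GM Pool.Agent.Y166.SM

section
variable {k : Type} [Field k] {N : ℕ}

/-- The polynomial vectors in the plane with the Plücker coordinates `L`. -/
def InE (L : Sg N → Polynomial k) (w : Fin N → Polynomial k) : Prop :=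
  ∀ p q r, w p * L (q, r) - w q * L (p, r) + w r * L (p, q) = 0

theorem InE.comb {L : Sg N → Polynomial k} {w w' : Fin N → Polynomial k} (h : InE L w)
    (h' : InE L w') (f : Polynomial k) : InE L (fun i => w i - f * w' i) := by
  intro p q r
  linear_combination h p q r - f * h' p q r

theorem InE.div {L : Sg N → Polynomial k} {w y : Fin N → Polynomial k} {f : Polynomial k}
    (hf : f ≠ 0) (hy : ∀ i, y i = f * w i) (h : InE L y) : InE L w := by
  intro p q r
  have h1 := h p q r
  rw [hy, hy, hy] at h1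
  apply mul_left_cancel₀ hf
  rw [mul_zero, ← h1]
  ring

theorem div_lin {y : Fin N → Polynomial k} {t : k} (h : ∀ i, (y i).eval t = 0) {n : ℕ}
    (hn : ∀ i, (y i).degree < ((n + 1 : ℕ) : WithBot ℕ)) :
    ∃ w : Fin N → Polynomial k, (∀ i, y i = (Polynomial.X - Polynomial.C t) * w i) ∧
      ∀ i, (w i).degree < (n : WithBot ℕ) := by
  have h1 : ∀ i, ∃ w, y i = (Polynomial.X - Polynomial.C t) * w := fun i =>
    Polynomial.dvd_iff_isRoot.2 (h i)
  choose w hw using h1
  refine ⟨w, hw, fun i => ?_⟩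
  by_cases h0 : w i = 0
  · rw [h0, Polynomial.degree_zero]
    exact WithBot.bot_lt_coe _
  · have h2 := hn i
    rw [hw i, Polynomial.degree_mul, Polynomial.degree_X_sub_C,
      Polynomial.degree_eq_natDegree h0] at h2
    rw [Polynomial.degree_eq_natDegree h0]
    norm_cast at h2 ⊢
    omega

theorem deg_lt_of_coeff {p : Polynomial k} {n : ℕ} (h : p.degree < ((n + 1 : ℕ) : WithBot ℕ))
    (h0 : p.coeff n = 0) : p.degree < (n : WithBot ℕ) := by
  rw [Polynomial.degree_lt_iff_coeff_zero] at h ⊢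
  intro m hm
  rcases Nat.eq_or_lt_of_le hm with h1 | h1
  · rw [← h1, h0]
  · exact h m h1

theorem natDegree_le_of_lt {p : Polynomial k} {n : ℕ}
    (h : p.degree < ((n + 1 : ℕ) : WithBot ℕ)) : p.natDegree ≤ n := by
  rw [Polynomial.natDegree_le_iff_coeff_eq_zero]
  intro m hm
  exact (Polynomial.degree_lt_iff_coeff_zero _ _).1 h m hm

/-- Vectors with trivial exterior product are proportional. -/
theorem prop_of_wdg {K : Type} [Field K] {u v : Fin N → K} (hu : u ≠ 0) (h : wdg u v = 0) :
    ∃ c, ∀ i, v i = c * u i := by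
  obtain ⟨j, hj⟩ := Function.ne_iff.1 hu
  refine ⟨v j / u j, fun i => ?_⟩
  have h1 := congrFun h (j, i)
  simp only [wdg, Pi.zero_apply] at h1
  have hj' : u j ≠ 0 := hj
  rw [div_mul_eq_mul_div, eq_div_iff hj']
  linear_combination h1

/-- The coefficients of a product of the vectors. -/
theorem coeff_wdg {u v : Fin N → Polynomial k} {a b : ℕ} (hu : ∀ i, (u i).natDegree ≤ a)
    (hv : ∀ i, (v i).natDegree ≤ b) (s : Sg N) :
    (wdg u v s).coeff (a + b) = wdg (fun i => (u i).coeff a) (fun i => (v i).coeff b) s := by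
  simp only [wdg]
  rw [Polynomial.coeff_sub, Polynomial.coeff_mul_add_eq_of_natDegree_le (hu _) (hv _), add_comm a b,
    Polynomial.coeff_mul_add_eq_of_natDegree_le (hv _) (hu _)]

theorem natDegree_wdg {u v : Fin N → Polynomial k} {a b : ℕ} (hu : ∀ i, (u i).natDegree ≤ a)
    (hv : ∀ i, (v i).natDegree ≤ b) (s : Sg N) : (wdg u v s).natDegree ≤ a + b := by
  simp only [wdg]
  refine (Polynomial.natDegree_sub_le _ _).trans (max_le ?_ ?_)
  · exact Polynomial.natDegree_mul_le.trans (add_le_add (hu _) (hv _))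
  · exact Polynomial.natDegree_mul_le.trans ((add_le_add (hv _) (hu _)).trans (by omega))

theorem coeff_term {c x y z : Polynomial k} {a b n δ w : ℕ} (hx : x.natDegree ≤ a)
    (hy : y.natDegree ≤ b) (hz : z.natDegree ≤ n) (hw : a + b + n = w)
    (hc : c ≠ 0 → c.natDegree + w ≤ δ) :
    (c * (x * y * z)).coeff δ =
      (if w ≤ δ then c.coeff (δ - w) else 0) * (x.coeff a * y.coeff b * z.coeff n) := by
  by_cases h0 : c = 0
  · rw [h0]
    simp
  · have h1 := hc h0
    have h2 : w ≤ δ := by omega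
    rw [if_pos h2]
    have h3 : δ = (δ - w) + (a + b + n) := by omega
    conv_lhs => rw [h3]
    rw [Polynomial.coeff_mul_add_eq_of_natDegree_le (by omega)
      (Polynomial.natDegree_mul_le.trans (add_le_add (Polynomial.natDegree_mul_le.trans
        (add_le_add hx hy)) hz)),
      Polynomial.coeff_mul_add_eq_of_natDegree_le (Polynomial.natDegree_mul_le.trans
        (add_le_add hx hy)) hz, Polynomial.coeff_mul_add_eq_of_natDegree_le hx hy]

/-- The leading coefficients of the coefficients of the tensor. -/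
noncomputable def lead (a b δ : ℕ) (c : Fin 4 → Polynomial k) : Fin 4 → k := fun i =>
  if (3 - (i : ℕ)) * a + i * b ≤ δ then (c i).coeff (δ - ((3 - (i : ℕ)) * a + i * b)) else 0

theorem coeff_cub {u v : Fin N → Polynomial k} {c : Fin 4 → Polynomial k} {a b δ : ℕ}
    (hu : ∀ i, (u i).natDegree ≤ a) (hv : ∀ i, (v i).natDegree ≤ b)
    (hc : ∀ i : Fin 4, c i ≠ 0 → (c i).natDegree + ((3 - (i : ℕ)) * a + i * b) ≤ δ) (t : Ta N) :
    (cub u v c t).coeff δ =
      cub (fun i => (u i).coeff a) (fun i => (v i).coeff b) (lead a b δ c) t := by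
  have h0 : ∀ (x y z : Polynomial k), x.natDegree ≤ a → y.natDegree ≤ a → z.natDegree ≤ a →
      (c 0 * (x * y * z)).coeff δ = lead a b δ c 0 * (x.coeff a * y.coeff a * z.coeff a) := by
    intro x y z hx hy hz
    exact coeff_term hx hy hz (w := (3 - ((0 : Fin 4) : ℕ)) * a + ((0 : Fin 4) : ℕ) * b)
      (by simp; ring) (hc 0)
  have h3 : ∀ (x y z : Polynomial k), x.natDegree ≤ b → y.natDegree ≤ b → z.natDegree ≤ b →
      (c 3 * (x * y * z)).coeff δ = lead a b δ c 3 * (x.coeff b * y.coeff b * z.coeff b) := by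
    intro x y z hx hy hz
    exact coeff_term hx hy hz (w := (3 - ((3 : Fin 4) : ℕ)) * a + ((3 : Fin 4) : ℕ) * b)
      (by simp; ring) (hc 3)
  have h1 : ∀ (x y z : Polynomial k) (p q r : ℕ), x.natDegree ≤ p → y.natDegree ≤ q →
      z.natDegree ≤ r → p + q + r = 2 * a + b →
      (c 1 * (x * y * z)).coeff δ = lead a b δ c 1 * (x.coeff p * y.coeff q * z.coeff r) := by
    intro x y z p q r hx hy hz hs
    exact coeff_term hx hy hz (w := (3 - ((1 : Fin 4) : ℕ)) * a + ((1 : Fin 4) : ℕ) * b)
      (by rw [hs]; simp) (hc 1)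
  have h2 : ∀ (x y z : Polynomial k) (p q r : ℕ), x.natDegree ≤ p → y.natDegree ≤ q →
      z.natDegree ≤ r → p + q + r = a + 2 * b →
      (c 2 * (x * y * z)).coeff δ = lead a b δ c 2 * (x.coeff p * y.coeff q * z.coeff r) := by
    intro x y z p q r hx hy hz hs
    exact coeff_term hx hy hz (w := (3 - ((2 : Fin 4) : ℕ)) * a + ((2 : Fin 4) : ℕ) * b)
      (by rw [hs]; simp) (hc 2)
  simp only [cub, mul_add, Polynomial.coeff_add]
  rw [h0 _ _ _ (hu _) (hu _) (hu _), h3 _ _ _ (hv _) (hv _) (hv _),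
    h1 _ _ _ a a b (hu _) (hu _) (hv _) (by ring), h1 _ _ _ a b a (hu _) (hv _) (hu _) (by ring),
    h1 _ _ _ b a a (hv _) (hu _) (hu _) (by ring), h2 _ _ _ a b b (hu _) (hv _) (hv _) (by ring),
    h2 _ _ _ b a b (hv _) (hu _) (hv _) (by ring), h2 _ _ _ b b a (hv _) (hv _) (hu _) (by ring)]

end

/-- The curve in terms of polynomials. -/
theorem nf {k : Type} [Field k] [IsAlgClosed k] {N e d : ℕ} (L : Sg N → Polynomial k)
    (M : Ta N → Polynomial k) (hLd : ∀ s, (L s).natDegree ≤ e) (hMd : ∀ t, (M t).natDegree ≤ d)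
    (hfin : ∀ t : k, ∃ (u v : Fin N → k) (c : Fin 4 → k), (fun s => (L s).eval t) = wdg u v ∧
      (fun τ => (M τ).eval t) = cub u v c ∧ wdg u v ≠ 0 ∧ cub u v c ≠ 0)
    (hLe : ∃ s, (L s).coeff e ≠ 0) (hMe : ∃ τ, (M τ).coeff d ≠ 0) :
    ∃ a b, a + b = e ∧ a ≤ b ∧ ∃ (u v : Fin N → Polynomial k) (c : Fin 4 → Polynomial k),
      Bd a b d u v c ∧ Gd a b d u v c ∧ wdg u v = L ∧ cub u v c = M := by
  have : Infinite k := IsAlgClosed.instInfinite
  -- the coordinates are antisymmetric
  have hLanti : ∀ p q, L (q, p) = - L (p, q) := by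
    intro p q
    apply Polynomial.funext
    intro t
    obtain ⟨u, v, c, h1, -⟩ := hfin t
    have h2 := congrFun h1 (q, p)
    have h3 := congrFun h1 (p, q)
    simp only [wdg] at h2 h3
    rw [Polynomial.eval_neg, h2, h3]
    ring
  have hrow : ∀ p, InE L (fun r => L (p, r)) := by
    intro s p q r
    apply Polynomial.funext
    intro t
    obtain ⟨u, v, c, h1, -⟩ := hfin t
    have h2 : ∀ x, (L x).eval t = wdg u v x := fun x => congrFun h1 x
    simp only [Polynomial.eval_add, Polynomial.eval_sub, Polynomial.eval_mul, h2, wdg,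
      Polynomial.eval_zero]
    ring
  obtain ⟨⟨p0, q0⟩, hpq⟩ : ∃ s, L s ≠ 0 := by
    obtain ⟨s, hs⟩ := hLe
    exact ⟨s, fun h => hs (by rw [h, Polynomial.coeff_zero])⟩
  -- a bound for the degrees of a vector
  have hbd : ∀ w : Fin N → Polynomial k, ∃ n : ℕ, ∀ i, (w i).degree < (n : WithBot ℕ) := by
    intro w
    refine ⟨(Finset.univ.sup fun i => (w i).natDegree) + 1, fun i => ?_⟩
    refine lt_of_le_of_lt Polynomial.degree_le_natDegree ?_
    norm_cast
    exact Nat.lt_succ_of_le (Finset.le_sup (f := fun i => (w i).natDegree) (Finset.mem_univ i))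
  -- the first vector
  have hex1 : ∃ n : ℕ, ∃ u : Fin N → Polynomial k, InE L u ∧ u ≠ 0 ∧
      ∀ i, (u i).degree < (n : WithBot ℕ) := by
    obtain ⟨n, hn⟩ := hbd (fun r => L (p0, r))
    exact ⟨n, _, hrow p0, fun h => hpq (congrFun h q0), hn⟩
  classical
  obtain ⟨u, huE, hu0, hua⟩ := Nat.find_spec hex1
  have hmin1 : ∀ n, n < Nat.find hex1 → ∀ w : Fin N → Polynomial k, InE L w →
      (∀ i, (w i).degree < (n : WithBot ℕ)) → w = 0 := by
    intro n hn w hw hd
    by_contra h0
    exact Nat.find_min hex1 hn ⟨w, hw, h0, hd⟩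
  generalize Nat.find hex1 = a' at hua hmin1
  obtain ⟨a, rfl⟩ : ∃ a, a' = a + 1 := by
    cases a' with
    | zero =>
      exfalso
      apply hu0
      funext i
      have h1 := hua i
      rw [Polynomial.degree_lt_iff_coeff_zero] at h1
      ext m
      rw [h1 m (Nat.zero_le m)]
      simp
    | succ a => exact ⟨a, rfl⟩
  -- the second vector
  have hex2 : ∃ n : ℕ, ∃ v : Fin N → Polynomial k, InE L v ∧ wdg u v ≠ 0 ∧
      ∀ i, (v i).degree < (n : WithBot ℕ) := by
    have h1 : ∃ p, wdg u (fun r => L (p, r)) ≠ 0 := by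
      by_contra hcon
      push Not at hcon
      obtain ⟨i, hi⟩ := Function.ne_iff.1 hu0
      have hi' : u i ≠ 0 := hi
      have h2 : ∀ p r, u i * L (p, r) = L (p, i) * u r := by
        intro p r
        have h3 := congrFun (hcon p) (i, r)
        simp only [wdg, Pi.zero_apply] at h3
        linear_combination h3
      have e1 := h2 p0 p0
      have e2 := h2 p0 q0
      have e3 := h2 q0 p0
      have e4 := h2 q0 q0
      have e5 := hLanti p0 q0
      have h4 : (u i * u i) * (L (p0, q0) * L (p0, q0)) = 0 := by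
        have h6 : ∀ p, L (p, p) = 0 := by
          intro p
          apply Polynomial.funext
          intro t
          obtain ⟨u1, v1, c1, g1, -⟩ := hfin t
          have g2 := congrFun g1 (p, p)
          simp only [wdg] at g2
          rw [g2, Polynomial.eval_zero]
          ring
        rw [h6, mul_zero] at e1 e4
        rw [e5] at e3
        rcases mul_eq_zero.1 e1.symm with h7 | h7
        · rw [h7, zero_mul] at e2
          rcases mul_eq_zero.1 e2 with h8 | h8
          · exact absurd h8 hi'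
          · rw [h8]; ring
        · rw [h7, mul_zero] at e3
          rcases mul_eq_zero.1 e3 with h8 | h8
          · exact absurd h8 hi'
          · rw [neg_eq_zero] at h8
            rw [h8]; ring
      rcases mul_eq_zero.1 h4 with h5 | h5
      · exact (mul_ne_zero hi' hi') h5
      · exact (mul_ne_zero hpq hpq) h5
    obtain ⟨p, hp⟩ := h1
    obtain ⟨n, hn⟩ := hbd (fun r => L (p, r))
    exact ⟨n, _, hrow p, hp, hn⟩
  obtain ⟨v, hvE, huv, hvb⟩ := Nat.find_spec hex2
  have hmin2 : ∀ n, n < Nat.find hex2 → ∀ w : Fin N → Polynomial k, InE L w →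
      (∀ i, (w i).degree < (n : WithBot ℕ)) → wdg u w = 0 := by
    intro n hn w hw hd
    by_contra h0
    exact Nat.find_min hex2 hn ⟨w, hw, h0, hd⟩
  generalize Nat.find hex2 = b' at hvb hmin2
  have hv0 : v ≠ 0 := by
    rintro rfl
    apply huv
    funext s
    simp [wdg]
  have hab' : a + 1 ≤ b' := by
    by_contra hlt
    exact hv0 (hmin1 b' (by omega) v hvE hvb)
  obtain ⟨b, rfl⟩ : ∃ b, b' = b + 1 := ⟨b' - 1, by omega⟩
  have hab : a ≤ b := by omega
  -- independence at the points of the affine line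
  have hind : ∀ t : k, wdg (fun i => (u i).eval t) (fun i => (v i).eval t) ≠ 0 := by
    intro t h0
    have hut : (fun i => (u i).eval t) ≠ 0 := by
      intro h1
      obtain ⟨w, hw1, hw2⟩ := div_lin (fun i => congrFun h1 i) hua
      have h2 := hmin1 a (by omega) w (InE.div (Polynomial.X_sub_C_ne_zero t) hw1 huE) hw2
      apply hu0
      funext i
      rw [hw1 i, h2]
      simp
    obtain ⟨c, hc⟩ := prop_of_wdg hut h0
    have h1 : ∀ i, (v i - Polynomial.C c * u i).eval t = 0 := by
      intro i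
      rw [Polynomial.eval_sub, Polynomial.eval_mul, Polynomial.eval_C, hc i, sub_self]
    obtain ⟨w, hw1, hw2⟩ := div_lin (n := b) h1 (fun i => by
      refine lt_of_le_of_lt (Polynomial.degree_sub_le _ _) (max_lt (hvb i) ?_)
      rw [Polynomial.degree_lt_iff_coeff_zero]
      intro m hm
      rw [Polynomial.coeff_C_mul, (Polynomial.degree_lt_iff_coeff_zero _ _).1 (hua i) m (by omega),
        mul_zero])
    have h2 := hmin2 b (by omega) w
      (InE.div (Polynomial.X_sub_C_ne_zero t) hw1 (hvE.comb huE _)) hw2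
    apply huv
    funext s
    have h3 := congrFun h2 s
    simp only [wdg, Pi.zero_apply] at h3 ⊢
    have e1 : v s.2 = (Polynomial.X - Polynomial.C t) * w s.2 + Polynomial.C c * u s.2 := by
      rw [← hw1]; ring
    have e2 : v s.1 = (Polynomial.X - Polynomial.C t) * w s.1 + Polynomial.C c * u s.1 := by
      rw [← hw1]; ring
    rw [e1, e2]
    linear_combination (Polynomial.X - Polynomial.C t) * h3
  -- independence at infinity
  have hinf : wdg (fun i => (u i).coeff a) (fun i => (v i).coeff b) ≠ 0 := by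
    intro h0
    have hut : (fun i => (u i).coeff a) ≠ 0 := by
      intro h1
      exact hu0 (hmin1 a (by omega) u huE fun i => deg_lt_of_coeff (hua i) (congrFun h1 i))
    obtain ⟨c, hc⟩ := prop_of_wdg hut h0
    have h2 := hmin2 b (by omega) (fun i => v i - (Polynomial.C c * Polynomial.X ^ (b - a)) * u i)
      (hvE.comb huE _) (fun i => by
        apply deg_lt_of_coeff
        · refine lt_of_le_of_lt (Polynomial.degree_sub_le _ _) (max_lt (hvb i) ?_)
          rw [Polynomial.degree_lt_iff_coeff_zero]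
          intro m hm
          rw [mul_assoc, Polynomial.coeff_C_mul, Polynomial.coeff_X_pow_mul', if_pos (by omega),
            (Polynomial.degree_lt_iff_coeff_zero _ _).1 (hua i) (m - (b - a)) (by omega), mul_zero]
        · rw [Polynomial.coeff_sub, mul_assoc, Polynomial.coeff_C_mul,
            Polynomial.coeff_X_pow_mul', if_pos (by omega), hc i]
          have : b - (b - a) = a := by omega
          rw [this, sub_self])
    apply huv
    funext s
    have h3 := congrFun h2 s
    simp only [wdg, Pi.zero_apply] at h3 ⊢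
    linear_combination h3
  -- the vectors are in the planes
  have hpl : ∀ t : k, ∀ w : Fin N → Polynomial k, InE L w → ∀ (u0 v0 : Fin N → k),
      (fun s => (L s).eval t) = wdg u0 v0 → ∀ p q r, (w p).eval t * wdg u0 v0 (q, r) -
        (w q).eval t * wdg u0 v0 (p, r) + (w r).eval t * wdg u0 v0 (p, q) = 0 := by
    intro t w hw u0 v0 h1 p q r
    rw [← h1]
    have h2 := congrArg (Polynomial.eval t) (hw p q r)
    simpa only [Polynomial.eval_add, Polynomial.eval_sub, Polynomial.eval_mul,
      Polynomial.eval_zero] using h2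
  have hprop : ∀ t : k, ∃ δ : k, ∀ s, wdg (fun i => (u i).eval t) (fun i => (v i).eval t) s =
      δ * (L s).eval t := by
    intro t
    obtain ⟨u0, v0, c0, h1, -, h3, -⟩ := hfin t
    obtain ⟨B, hB⟩ := exists_dual h3
    have e1 := fun p => dec B u0 v0 (fun i => (u i).eval t) hB (hpl t u huE u0 v0 h1) p
    have e2 := fun p => dec B u0 v0 (fun i => (v i).eval t) hB (hpl t v hvE u0 v0 h1) p
    generalize ∑ s, B s * wdg (fun i => (u i).eval t) v0 s = x1 at e1
    generalize ∑ s, B s * wdg u0 (fun i => (u i).eval t) s = x2 at e1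
    generalize ∑ s, B s * wdg (fun i => (v i).eval t) v0 s = y1 at e2
    generalize ∑ s, B s * wdg u0 (fun i => (v i).eval t) s = y2 at e2
    refine ⟨x1 * y2 - x2 * y1, fun s => ?_⟩
    have h4 : (L s).eval t = wdg u0 v0 s := congrFun h1 s
    rw [h4]
    simp only [wdg]
    rw [e1, e1, e2, e2]
    ring
  -- the unit ideal
  obtain ⟨B, hB⟩ := bez L (fun t => by
    obtain ⟨u0, v0, c0, h1, -, h3, -⟩ := hfin t
    obtain ⟨s, hs⟩ := Function.ne_iff.1 h3
    exact ⟨s, by rw [congrFun h1 s]; exact hs⟩)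
  have hcross : ∀ s s', wdg u v s * L s' = wdg u v s' * L s := by
    intro s s'
    apply Polynomial.funext
    intro t
    obtain ⟨δ, hδ⟩ := hprop t
    have e1 : ∀ s, (wdg u v s).eval t = δ * (L s).eval t := by
      intro s
      rw [← hδ s]
      exact wdg_map (Polynomial.evalRingHom t) u v s
    rw [Polynomial.eval_mul, Polynomial.eval_mul, e1, e1]
    ring
  obtain ⟨h, hh⟩ : ∃ h : Polynomial k, ∀ s, wdg u v s = h * L s := by
    refine ⟨∑ s, B s * wdg u v s, fun s' => ?_⟩
    rw [Finset.sum_mul]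
    calc wdg u v s' = wdg u v s' * ∑ s, B s * L s := by rw [hB, mul_one]
      _ = _ := by
        rw [Finset.mul_sum]
        refine Finset.sum_congr rfl fun s _ => ?_
        linear_combination (-B s) * hcross s s'
  obtain ⟨κ, hκ0, rfl⟩ : ∃ κ : k, κ ≠ 0 ∧ Polynomial.C κ = h := by
    have h1 : h.degree = 0 := by
      by_contra hne
      obtain ⟨t, ht⟩ := IsAlgClosed.exists_root h hne
      apply hind t
      funext s
      have e1 : (wdg u v s).eval t = wdg (fun i => (u i).eval t) (fun i => (v i).eval t) s :=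
        wdg_map (Polynomial.evalRingHom t) u v s
      rw [← e1, hh s, Polynomial.eval_mul, ht, zero_mul]
      rfl
    have h2 := Polynomial.eq_C_of_degree_eq_zero h1
    refine ⟨h.coeff 0, ?_, h2.symm⟩
    intro h3
    rw [h3, map_zero] at h2
    rw [h2, Polynomial.degree_zero] at h1
    exact absurd h1 (by decide)
  -- rescaling
  obtain ⟨u', hu'⟩ : ∃ u' : Fin N → Polynomial k, u' = fun i => Polynomial.C κ⁻¹ * u i := ⟨_, rfl⟩
  have hCC : Polynomial.C κ⁻¹ * Polynomial.C κ = (1 : Polynomial k) := by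
    rw [← Polynomial.C_mul, inv_mul_cancel₀ hκ0, Polynomial.C_1]
  have hL : wdg u' v = L := by
    funext s
    have h1 : wdg u' v s = Polynomial.C κ⁻¹ * wdg u v s := by
      rw [hu']
      simp only [wdg]
      ring
    rw [h1, hh, ← mul_assoc, hCC, one_mul]
  have hua' : ∀ i, (u' i).natDegree ≤ a := by
    intro i
    rw [hu']
    exact (Polynomial.natDegree_C_mul_le _ _).trans (natDegree_le_of_lt (hua i))
  have hvb' : ∀ i, (v i).natDegree ≤ b := fun i => natDegree_le_of_lt (hvb i)
  have hinf' : wdg (fun i => (u' i).coeff a) (fun i => (v i).coeff b) ≠ 0 := by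
    intro h0
    apply hinf
    funext s
    have h1 := congrFun h0 s
    have h2 : ∀ i, (u' i).coeff a = κ⁻¹ * (u i).coeff a := by
      intro i
      rw [hu']
      exact Polynomial.coeff_C_mul _
    simp only [wdg, h2, Pi.zero_apply] at h1 ⊢
    apply mul_left_cancel₀ (inv_ne_zero hκ0)
    rw [mul_zero, ← h1]
    ring
  have hfin' : ∀ t : k, wdg (fun i => (u' i).eval t) (fun i => (v i).eval t) =
      fun s => (L s).eval t := by
    intro t
    funext s
    rw [← hL]
    exact (wdg_map (Polynomial.evalRingHom t) u' v s).symm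
  -- the degrees
  have he : a + b = e := by
    rcases lt_trichotomy (a + b) e with h1 | h1 | h1
    · exfalso
      obtain ⟨s, hs⟩ := hLe
      apply hs
      rw [← hL]
      exact Polynomial.coeff_eq_zero_of_natDegree_lt
        (lt_of_le_of_lt (natDegree_wdg hua' hvb' s) h1)
    · exact h1
    · exfalso
      apply hinf'
      funext s
      rw [← coeff_wdg hua' hvb' s, hL]
      exact Polynomial.coeff_eq_zero_of_natDegree_lt (lt_of_le_of_lt (hLd s) h1)
  -- the tensor
  rw [← hL] at hB
  have hM : cub u' v (coe4 B u' v M) = M := by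
    funext τ
    apply Polynomial.funext
    intro t
    obtain ⟨u0, v0, c0, h1, h2, h3, -⟩ := hfin t
    have e1 : (cub u' v (coe4 B u' v M) τ).eval t = cub (fun i => (u' i).eval t)
        (fun i => (v i).eval t) (fun i => (coe4 B u' v M i).eval t) τ :=
      cub_map (Polynomial.evalRingHom t) _ _ _ _
    have e2 : (fun i => (coe4 B u' v M i).eval t) = coe4 (fun s => (B s).eval t)
        (fun i => (u' i).eval t) (fun i => (v i).eval t) (fun τ => (M τ).eval t) :=
      coe4_map (Polynomial.evalRingHom t) B u' v M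
    have e3 : ∑ s, (B s).eval t * wdg (fun i => (u' i).eval t) (fun i => (v i).eval t) s = 1 := by
      have e4 := congrArg (Polynomial.eval t) hB
      rw [Polynomial.eval_finset_sum, Polynomial.eval_one] at e4
      rw [← e4]
      refine Finset.sum_congr rfl fun s _ => ?_
      rw [Polynomial.eval_mul]
      congr 1
      exact (wdg_map (Polynomial.evalRingHom t) u' v s).symm
    rw [e1, e2, h2, cub_coe4 _ _ _ u0 v0 e3]
    · exact (congrFun h2 τ).symm
    · intro p q r
      rw [hfin' t, h1]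
      simp only [wdg]
      ring
    · intro p q r
      rw [hfin' t, h1]
      simp only [wdg]
      ring
  obtain ⟨c, hc⟩ : ∃ c, coe4 B u' v M = c := ⟨_, rfl⟩
  rw [hc] at hM
  -- the bounds for the degrees of the coefficients
  have hbound : ∀ i : Fin 4, c i ≠ 0 → (c i).natDegree + ((3 - (i : ℕ)) * a + i * b) ≤ d := by
    by_contra hcon
    push Not at hcon
    obtain ⟨i0, hi0, hi1⟩ := hcon
    obtain ⟨i, hi, himax⟩ := Finset.exists_max_image (Finset.univ.filter fun i : Fin 4 => c i ≠ 0)
      (fun i => (c i).natDegree + ((3 - (i : ℕ)) * a + i * b)) ⟨i0, by simpa using hi0⟩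
    rw [Finset.mem_filter] at hi
    obtain ⟨δ, hδ⟩ : ∃ δ, δ = (c i).natDegree + ((3 - (i : ℕ)) * a + i * b) := ⟨_, rfl⟩
    have hle : ∀ j : Fin 4, c j ≠ 0 → (c j).natDegree + ((3 - (j : ℕ)) * a + j * b) ≤ δ := by
      intro j hj
      rw [hδ]
      exact himax j (by simpa using hj)
    have hgt : d < δ := lt_of_lt_of_le hi1 (hle i0 hi0)
    have h1 : cub (fun i => (u' i).coeff a) (fun i => (v i).coeff b) (lead a b δ c) = 0 := by
      funext τ
      rw [← coeff_cub hua' hvb' hle, hM]
      exact Polynomial.coeff_eq_zero_of_natDegree_lt (lt_of_le_of_lt (hMd τ) hgt)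
    have h2 := congrFun (cub_inj hinf' h1) i
    simp only [lead, Pi.zero_apply] at h2
    rw [if_pos (by omega)] at h2
    have h3 : δ - ((3 - (i : ℕ)) * a + i * b) = (c i).natDegree := by omega
    rw [h3] at h2
    exact hi.2 (Polynomial.leadingCoeff_eq_zero.1 h2)
  refine ⟨a, b, he, hab, u', v, c, ⟨hua', hvb', hbound⟩, ⟨?_, hinf', ?_, ?_⟩, hL, hM⟩
  · intro t
    rw [hfin' t]
    obtain ⟨u0, v0, c0, h1, -, h3, -⟩ := hfin t
    rw [h1]
    exact h3
  · intro t
    by_contra hcon
    push Not at hcon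
    obtain ⟨u0, v0, c0, -, h2, -, h4⟩ := hfin t
    apply h4
    rw [← h2]
    funext τ
    have e1 : (cub u' v c τ).eval t = cub (fun i => (u' i).eval t)
        (fun i => (v i).eval t) (fun i => (c i).eval t) τ :=
      cub_map (Polynomial.evalRingHom t) _ _ _ _
    show (M τ).eval t = 0
    rw [← hM, e1]
    simp only [cub, hcon]
    ring
  · by_contra hcon
    push Not at hcon
    obtain ⟨τ, hτ⟩ := hMe
    apply hτ
    rw [← hM, coeff_cub hua' hvb' hbound]
    have h1 : lead a b d c = 0 := by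
      funext i
      simp only [lead, Pi.zero_apply]
      split_ifs with h
      · exact hcon i h
      · rfl
    rw [h1]
    simp [cub]

section
variable {k : Type} [Field k] {ι : Type} {e : ℕ}

/-- The vector of polynomials with the given coefficients. -/
noncomputable def pol (l : ι × Fin (e + 1) → k) (s : ι) : Polynomial k :=
  ∑ i : Fin (e + 1), Polynomial.C (l (s, i)) * Polynomial.X ^ (i : ℕ)

theorem pol_coeff (l : ι × Fin (e + 1) → k) (s : ι) (i : Fin (e + 1)) :
    (pol l s).coeff i = l (s, i) := by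
  rw [pol, Polynomial.finset_sum_coeff, Finset.sum_eq_single i]
  · rw [Polynomial.coeff_C_mul_X_pow, if_pos rfl]
  · intro j _ hj
    rw [Polynomial.coeff_C_mul_X_pow, if_neg fun h => hj (Fin.ext h.symm)]
  · intro h
    exact absurd (Finset.mem_univ _) h

theorem pol_natDegree (l : ι × Fin (e + 1) → k) (s : ι) : (pol l s).natDegree ≤ e := by
  refine Polynomial.natDegree_sum_le_of_forall_le _ _ fun i _ => ?_
  exact (Polynomial.natDegree_C_mul_X_pow_le _ _).trans (Nat.lt_succ_iff.1 i.2)

theorem pol_eval (l : ι × Fin (e + 1) → k) (s : ι) (t : k) :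
    (pol l s).eval t = ∑ i : Fin (e + 1), l (s, i) * t ^ (i : ℕ) := by
  rw [pol, Polynomial.eval_finset_sum]
  refine Finset.sum_congr rfl fun i _ => ?_
  rw [Polynomial.eval_mul, Polynomial.eval_C, Polynomial.eval_pow, Polynomial.eval_X]

end

section
variable {k : Type} [Field k] {σ τ : Type} {e d : ℕ}

theorem biforms_smul (a : k) (γ : (σ × Fin (e + 1)) × (τ × Fin (d + 1)) → k) (s : Fin 2 → k) :
    biforms (a • γ) s = a • biforms γ s := by
  funext t
  simp only [biforms, Pi.smul_apply, smul_eq_mul, Finset.mul_sum, mul_assoc]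

theorem biforms_fin (l : σ × Fin (e + 1) → k) (m : τ × Fin (d + 1) → k) (t : k) :
    biforms (fun x => l x.1 * m x.2) ![t, 1] =
      fun x : σ × τ => (pol l x.1).eval t * (pol m x.2).eval t := by
  funext x
  rw [pol_eval, pol_eval, Finset.sum_mul_sum]
  refine Finset.sum_congr rfl fun p _ => Finset.sum_congr rfl fun q _ => ?_
  simp only [Matrix.cons_val_zero, Matrix.cons_val_one, one_pow, mul_one]
  ring

theorem biforms_inf (l : σ × Fin (e + 1) → k) (m : τ × Fin (d + 1) → k) :
    biforms (fun x => l x.1 * m x.2) ![1, 0] =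
      fun x : σ × τ => l (x.1, Fin.last e) * m (x.2, Fin.last d) := by
  funext x
  show ∑ p : Fin (e + 1), ∑ q : Fin (d + 1), (l (x.1, p) * m (x.2, q)) *
    ((1 : k) ^ (p : ℕ) * 0 ^ (e - (p : ℕ))) * ((1 : k) ^ (q : ℕ) * 0 ^ (d - (q : ℕ))) = _
  rw [Finset.sum_eq_single (Fin.last e), Finset.sum_eq_single (Fin.last d)]
  · simp
  · intro q _ hq
    have h1 : d - (q : ℕ) ≠ 0 := by
      have := q.2
      have h2 : (q : ℕ) ≠ d := fun h => hq (Fin.ext h)
      omega
    rw [zero_pow h1]
    ring
  · intro h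
    exact absurd (Finset.mem_univ _) h
  · intro p _ hp
    refine Finset.sum_eq_zero fun q _ => ?_
    have h1 : e - (p : ℕ) ≠ 0 := by
      have := p.2
      have h2 : (p : ℕ) ≠ e := fun h => hp (Fin.ext h)
      omega
    rw [zero_pow h1]
    ring
  · intro h
    exact absurd (Finset.mem_univ _) h

end

/-- The coordinates of a point of the bundle. -/
theorem pw {k : Type} [Field k] {N : ℕ} {A : Sg N → k} {B : Ta N → k} {z : PP k (Co N)}
    (hz : z ∈ XX k N) (h : Rep z (fun t => A t.1 * B t.2)) :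
    ∃ (u v : Fin N → k) (c : Fin 4 → k), A = wdg u v ∧ B = cub u v c ∧ wdg u v ≠ 0 ∧
      cub u v c ≠ 0 := by
  obtain ⟨u, v, c, h1⟩ := hz
  obtain ⟨a, ha, h2⟩ := h1.exists_smul h
  have h3 : ∀ s t, A s * B t = a * (wdg u v s * cub u v c t) := fun s t => congrFun h2 (s, t)
  obtain ⟨⟨s0, t0⟩, h4⟩ := Function.ne_iff.1 h.ne_zero
  have h5 : A s0 * B t0 ≠ 0 := h4
  have hA : A s0 ≠ 0 := left_ne_zero_of_mul h5
  have hB : B t0 ≠ 0 := right_ne_zero_of_mul h5
  have h6 : a * (wdg u v s0 * cub u v c t0) ≠ 0 := by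
    rw [← h3]
    exact h5
  have hw : wdg u v s0 ≠ 0 := left_ne_zero_of_mul (right_ne_zero_of_mul h6)
  have hc : cub u v c t0 ≠ 0 := right_ne_zero_of_mul (right_ne_zero_of_mul h6)
  obtain ⟨κ, hκ⟩ : ∃ κ : k, κ = a * cub u v c t0 / B t0 := ⟨_, rfl⟩
  obtain ⟨μ, hμ⟩ : ∃ μ : k, μ = a * wdg u v s0 / A s0 := ⟨_, rfl⟩
  have hκ0 : κ ≠ 0 := by
    rw [hκ]
    exact div_ne_zero (mul_ne_zero ha hc) hB
  have e1 : A = wdg (fun i => κ * u i) v := by
    funext s
    have h7 : A s = κ * wdg u v s := by
      rw [hκ, div_mul_eq_mul_div, eq_div_iff hB, h3]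
      ring
    rw [h7]
    simp only [wdg]
    ring
  have e2 : B = cub (fun i => κ * u i) v
      ![μ * c 0 / κ ^ 3, μ * c 1 / κ ^ 2, μ * c 2 / κ, μ * c 3] := by
    funext t
    have h7 : B t = μ * cub u v c t := by
      rw [hμ, div_mul_eq_mul_div, eq_div_iff hA, mul_comm (B t), h3]
      ring
    rw [h7]
    simp only [cub, Matrix.cons_val]
    field_simp
  refine ⟨_, _, _, e1, e2, ?_, ?_⟩
  · rw [← e1]
    exact fun h0 => hA (congrFun h0 s0)
  · rw [← e2]
    exact fun h0 => hB (congrFun h0 t0)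

theorem done : Pool.Agent.Y198.MC.StmNF := by
  intro k _ _ _ N e d γ hγ
  obtain ⟨⟨l, m, hlm⟩, hpt⟩ := hγ
  obtain ⟨a, ha, h1⟩ := (rep_rep γ).exists_smul hlm
  have hpt' : ∀ s : Fin 2 → k, s ≠ 0 → ∃ z ∈ XX k N,
      Rep z (biforms (fun x : (Sg N × Fin (e + 1)) × (Ta N × Fin (d + 1)) => l x.1 * m x.2) s) := by
    intro s hs
    obtain ⟨z, hz, h2⟩ := hpt s hs
    refine ⟨z, hz, ?_⟩
    rw [h1, biforms_smul]
    exact h2.smul ha
  have hfin : ∀ t : k, ∃ (u v : Fin N → k) (c : Fin 4 → k),
      (fun s => (pol l s).eval t) = wdg u v ∧ (fun τ => (pol m τ).eval t) = cub u v c ∧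
      wdg u v ≠ 0 ∧ cub u v c ≠ 0 := by
    intro t
    obtain ⟨z, hz, h2⟩ := hpt' ![t, 1] (fun h => one_ne_zero (congrFun h 1))
    rw [biforms_fin] at h2
    exact pw hz h2
  obtain ⟨z, hz, h2⟩ := hpt' ![1, 0] (fun h => one_ne_zero (congrFun h 0))
  rw [biforms_inf] at h2
  obtain ⟨⟨s0, t0⟩, h4⟩ := Function.ne_iff.1 h2.ne_zero
  have h5 : l (s0, Fin.last e) * m (t0, Fin.last d) ≠ 0 := h4
  obtain ⟨a, b, hab, hle, u, v, c, hBd, hGd, hL, hM⟩ := nf (pol l) (pol m) (pol_natDegree l)
    (pol_natDegree m) hfin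
    ⟨s0, by
      have := pol_coeff l s0 (Fin.last e)
      rw [Fin.val_last] at this
      rw [this]
      exact left_ne_zero_of_mul h5⟩
    ⟨t0, by
      have := pol_coeff m t0 (Fin.last d)
      rw [Fin.val_last] at this
      rw [this]
      exact right_ne_zero_of_mul h5⟩
  refine ⟨a, b, hab, hle, u, v, c, hBd, hGd, ?_⟩
  have h6 : cv e d u v c =
      (fun x : (Sg N × Fin (e + 1)) × (Ta N × Fin (d + 1)) => l x.1 * m x.2) := by
    funext x
    rw [cv, hL, hM, pol_coeff, pol_coeff]
  rw [h6]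
  exact hlm

end Pool.Agent.Y168.MC
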