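import Pool.Agent.Y198.MC.Stm

/-!
# Dual vectors of a basis of a plane
-/

set_option autoImplicit false
set_option linter.unusedSectionVars false
set_option linter.deprecated false

namespace Pool.Agent.Y168.MC

open Pool.Agent.Y198.MC

section
variable {A : Type} [CommRing A] {N : ℕ}

/-- The value of the functional given by `B` on `w ∧ v`, as a vector. -/
def al (B : Sg N → A) (v : Fin N → A) : Fin N → A := fun p => ∑ q, (B (p, q) - B (q, p)) * v q

theorem al_dot (B : Sg N → A) (v w : Fin N → A) :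
    ∑ p, al B v p * w p = ∑ s : Sg N, B s * wdg w v s := by
  have h1 : ∑ p, al B v p * w p = ∑ p, ∑ q, B (p, q) * (w p * v q) -
      ∑ p, ∑ q, B (q, p) * (w p * v q) := by
    rw [← Finset.sum_sub_distrib]
    refine Finset.sum_congr rfl fun p _ => ?_
    rw [← Finset.sum_sub_distrib, al, Finset.sum_mul]
    refine Finset.sum_congr rfl fun q _ => ?_
    ring
  have h2 : ∑ p, ∑ q, B (q, p) * (w p * v q) = ∑ p, ∑ q, B (p, q) * (w q * v p) :=
    Finset.sum_comm
  rw [h1, h2, Fintype.sum_prod_type, ← Finset.sum_sub_distrib]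
  refine Finset.sum_congr rfl fun p _ => ?_
  rw [← Finset.sum_sub_distrib]
  refine Finset.sum_congr rfl fun q _ => ?_
  simp only [wdg]
  ring

/-- A vector in the plane spanned by `u` and `v`. -/
theorem dec (B : Sg N → A) (u v w : Fin N → A) (h1 : ∑ s, B s * wdg u v s = 1)
    (hw : ∀ p q r, w p * wdg u v (q, r) - w q * wdg u v (p, r) + w r * wdg u v (p, q) = 0)
    (p : Fin N) : w p = (∑ s, B s * wdg w v s) * u p + (∑ s, B s * wdg u w s) * v p := by
  rw [Finset.sum_mul, Finset.sum_mul, ← Finset.sum_add_distrib]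
  calc w p = w p * ∑ s, B s * wdg u v s := by rw [h1, mul_one]
    _ = _ := by
      rw [Finset.mul_sum]
      refine Finset.sum_congr rfl fun s _ => ?_
      have h2 := hw p s.1 s.2
      simp only [wdg] at h2 ⊢
      linear_combination B s * h2

/-- The value of a tensor of degree three on three vectors. -/
def ev3 (M : Ta N → A) (x y z : Fin N → A) : A :=
  ∑ p, ∑ q, ∑ r, M (p, q, r) * (x p * (y q * z r))

theorem ev3_add (M M' : Ta N → A) (x y z : Fin N → A) :
    ev3 (M + M') x y z = ev3 M x y z + ev3 M' x y z := by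
  simp only [ev3, Pi.add_apply, add_mul, Finset.sum_add_distrib]

theorem ev3_one (c : A) (f g h x y z : Fin N → A) :
    ev3 (fun t => c * (f t.1 * g t.2.1 * h t.2.2)) x y z =
      c * ((∑ p, x p * f p) * (∑ p, y p * g p) * (∑ p, z p * h p)) := by
  simp only [ev3]
  rw [Finset.sum_mul_sum, Finset.sum_mul, Finset.mul_sum]
  refine Finset.sum_congr rfl fun p _ => ?_
  rw [Finset.sum_mul, Finset.mul_sum]
  refine Finset.sum_congr rfl fun q _ => ?_
  rw [Finset.mul_sum, Finset.mul_sum]
  refine Finset.sum_congr rfl fun r _ => ?_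
  ring

theorem ev3_cub (u v : Fin N → A) (c : Fin 4 → A) (x y z : Fin N → A) :
    ev3 (cub u v c) x y z =
      c 0 * ((∑ p, x p * u p) * (∑ p, y p * u p) * (∑ p, z p * u p)) +
      c 1 * ((∑ p, x p * u p) * (∑ p, y p * u p) * (∑ p, z p * v p) +
        (∑ p, x p * u p) * (∑ p, y p * v p) * (∑ p, z p * u p) +
        (∑ p, x p * v p) * (∑ p, y p * u p) * (∑ p, z p * u p)) +
      c 2 * ((∑ p, x p * u p) * (∑ p, y p * v p) * (∑ p, z p * v p) +
        (∑ p, x p * v p) * (∑ p, y p * u p) * (∑ p, z p * v p) +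
        (∑ p, x p * v p) * (∑ p, y p * v p) * (∑ p, z p * u p)) +
      c 3 * ((∑ p, x p * v p) * (∑ p, y p * v p) * (∑ p, z p * v p)) := by
  have h : cub u v c = (fun t => c 0 * (u t.1 * u t.2.1 * u t.2.2)) +
      (fun t => c 1 * (u t.1 * u t.2.1 * v t.2.2)) + (fun t => c 1 * (u t.1 * v t.2.1 * u t.2.2)) +
      (fun t => c 1 * (v t.1 * u t.2.1 * u t.2.2)) + (fun t => c 2 * (u t.1 * v t.2.1 * v t.2.2)) +
      (fun t => c 2 * (v t.1 * u t.2.1 * v t.2.2)) + (fun t => c 2 * (v t.1 * v t.2.1 * u t.2.2)) +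
      (fun t => c 3 * (v t.1 * v t.2.1 * v t.2.2)) := by
    funext t
    simp only [cub, Pi.add_apply]
    ring
  rw [h]
  simp only [ev3_add, ev3_one]
  ring

theorem al_self (B : Sg N → A) (v : Fin N → A) : ∑ p, al B v p * v p = 0 := by
  rw [al_dot]
  refine Finset.sum_eq_zero fun s _ => ?_
  simp only [wdg]
  ring

theorem al_one (B : Sg N → A) (u v : Fin N → A) (h1 : ∑ s, B s * wdg u v s = 1) :
    ∑ p, al B v p * u p = 1 := by
  rw [al_dot, h1]

theorem al_neg (B : Sg N → A) (u v : Fin N → A) (h1 : ∑ s, B s * wdg u v s = 1) :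
    ∑ p, (-al B u) p * v p = 1 := by
  have h2 : ∑ p, (-al B u) p * v p = - ∑ p, al B u p * v p := by
    rw [← Finset.sum_neg_distrib]
    refine Finset.sum_congr rfl fun p _ => ?_
    rw [Pi.neg_apply, neg_mul]
  rw [h2, al_dot, ← h1, ← Finset.sum_neg_distrib]
  refine Finset.sum_congr rfl fun s _ => ?_
  simp only [wdg]
  ring

theorem al_neg_self (B : Sg N → A) (u : Fin N → A) : ∑ p, (-al B u) p * u p = 0 := by
  have h2 : ∑ p, (-al B u) p * u p = - ∑ p, al B u p * u p := by
    rw [← Finset.sum_neg_distrib]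
    refine Finset.sum_congr rfl fun p _ => ?_
    rw [Pi.neg_apply, neg_mul]
  rw [h2, al_self, neg_zero]

/-- The coefficients of a tensor in the third symmetric power of the plane. -/
def coe4 (B : Sg N → A) (u v : Fin N → A) (M : Ta N → A) : Fin 4 → A :=
  ![ev3 M (al B v) (al B v) (al B v), ev3 M (al B v) (al B v) (-al B u),
    ev3 M (al B v) (-al B u) (-al B u), ev3 M (-al B u) (-al B u) (-al B u)]

theorem coe4_cub (B : Sg N → A) (u v : Fin N → A) (h1 : ∑ s, B s * wdg u v s = 1)
    (c : Fin 4 → A) : coe4 B u v (cub u v c) = c := by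
  have e1 := al_one B u v h1
  have e2 := al_self B v
  have e3 := al_neg B u v h1
  have e4 := al_neg_self B u
  funext i
  fin_cases i
  · show ev3 (cub u v c) (al B v) (al B v) (al B v) = c 0
    rw [ev3_cub, e1, e2]
    ring
  · show ev3 (cub u v c) (al B v) (al B v) (-al B u) = c 1
    rw [ev3_cub, e1, e2, e3, e4]
    ring
  · show ev3 (cub u v c) (al B v) (-al B u) (-al B u) = c 2
    rw [ev3_cub, e1, e2, e3, e4]
    ring
  · show ev3 (cub u v c) (-al B u) (-al B u) (-al B u) = c 3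
    rw [ev3_cub, e3, e4]
    ring

theorem cub_comb (u v : Fin N → A) (x y z w : A) (c : Fin 4 → A) :
    cub (fun i => x * u i + y * v i) (fun i => z * u i + w * v i) c =
      cub u v ![c 0 * x ^ 3 + 3 * c 1 * x ^ 2 * z + 3 * c 2 * x * z ^ 2 + c 3 * z ^ 3,
        c 0 * x ^ 2 * y + c 1 * (x ^ 2 * w + 2 * x * y * z) + c 2 * (2 * x * z * w + y * z ^ 2) +
          c 3 * z ^ 2 * w,
        c 0 * x * y ^ 2 + c 1 * (2 * x * y * w + y ^ 2 * z) + c 2 * (x * w ^ 2 + 2 * y * z * w) +
          c 3 * z * w ^ 2,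
        c 0 * y ^ 3 + 3 * c 1 * y ^ 2 * w + 3 * c 2 * y * w ^ 2 + c 3 * w ^ 3] := by
  funext t
  simp only [cub, Matrix.cons_val]
  ring

/-- The tensors in the third symmetric power of the plane have their coefficients. -/
theorem cub_coe4 (B : Sg N → A) (u v u' v' : Fin N → A) (h1 : ∑ s, B s * wdg u v s = 1)
    (hu : ∀ p q r, u' p * wdg u v (q, r) - u' q * wdg u v (p, r) + u' r * wdg u v (p, q) = 0)
    (hv : ∀ p q r, v' p * wdg u v (q, r) - v' q * wdg u v (p, r) + v' r * wdg u v (p, q) = 0)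
    (c : Fin 4 → A) : cub u v (coe4 B u v (cub u' v' c)) = cub u' v' c := by
  have e1 : u' = fun p => (∑ s, B s * wdg u' v s) * u p + (∑ s, B s * wdg u u' s) * v p :=
    funext fun p => dec B u v u' h1 hu p
  have e2 : v' = fun p => (∑ s, B s * wdg v' v s) * u p + (∑ s, B s * wdg u v' s) * v p :=
    funext fun p => dec B u v v' h1 hv p
  generalize ∑ s, B s * wdg u' v s = x at e1
  generalize ∑ s, B s * wdg u u' s = y at e1
  generalize ∑ s, B s * wdg v' v s = z at e2
  generalize ∑ s, B s * wdg u v' s = w at e2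
  subst e1 e2
  rw [cub_comb, coe4_cub B u v h1]

end

section
variable {A A' : Type} [CommRing A] [CommRing A'] {N : ℕ} (φ : A →+* A')

theorem wdg_map (u v : Fin N → A) (s : Sg N) :
    φ (wdg u v s) = wdg (fun i => φ (u i)) (fun i => φ (v i)) s := by
  simp [wdg]

theorem cub_map (u v : Fin N → A) (c : Fin 4 → A) (t : Ta N) :
    φ (cub u v c t) = cub (fun i => φ (u i)) (fun i => φ (v i)) (fun i => φ (c i)) t := by
  simp [cub]

theorem al_map (B : Sg N → A) (v : Fin N → A) :
    (fun p => φ (al B v p)) = al (fun s => φ (B s)) (fun i => φ (v i)) := by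
  funext p
  simp [al]

theorem ev3_map (M : Ta N → A) (x y z : Fin N → A) :
    φ (ev3 M x y z) = ev3 (fun t => φ (M t)) (fun i => φ (x i)) (fun i => φ (y i))
      (fun i => φ (z i)) := by
  simp [ev3]

theorem coe4_map (B : Sg N → A) (u v : Fin N → A) (M : Ta N → A) :
    (fun i => φ (coe4 B u v M i)) =
      coe4 (fun s => φ (B s)) (fun i => φ (u i)) (fun i => φ (v i)) (fun t => φ (M t)) := by
  have h1 := al_map φ B v
  have h2 : (fun p => φ ((-al B u) p)) = -al (fun s => φ (B s)) (fun i => φ (u i)) := by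
    rw [← al_map]
    funext p
    simp
  funext i
  fin_cases i
  · show φ (ev3 M (al B v) (al B v) (al B v)) = _
    rw [ev3_map, h1]
    rfl
  · show φ (ev3 M (al B v) (al B v) (-al B u)) = _
    rw [ev3_map, h1, h2]
    rfl
  · show φ (ev3 M (al B v) (-al B u) (-al B u)) = _
    rw [ev3_map, h1, h2]
    rfl
  · show φ (ev3 M (-al B u) (-al B u) (-al B u)) = _
    rw [ev3_map, h2]
    rfl

end

section
variable {k : Type} [Field k] {N : ℕ}

theorem exists_dual {u v : Fin N → k} (h : wdg u v ≠ 0) :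
    ∃ B : Sg N → k, ∑ s, B s * wdg u v s = 1 := by
  obtain ⟨s0, hs0⟩ := Function.ne_iff.1 h
  refine ⟨Pi.single s0 (wdg u v s0)⁻¹, ?_⟩
  rw [Finset.sum_eq_single s0]
  · rw [Pi.single_eq_same]
    exact inv_mul_cancel₀ hs0
  · intro s _ hs
    rw [Pi.single_eq_of_ne hs, zero_mul]
  · intro h1
    exact absurd (Finset.mem_univ _) h1

theorem cub_inj {u v : Fin N → k} (h : wdg u v ≠ 0) {c : Fin 4 → k} (hc : cub u v c = 0) :
    c = 0 := by
  obtain ⟨B, hB⟩ := exists_dual h
  have h1 := coe4_cub B u v hB c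
  have h2 := coe4_cub B u v hB 0
  have h3 : cub u v (0 : Fin 4 → k) = 0 := by
    funext t
    simp [cub]
  rw [hc] at h1
  rw [h3] at h2
  rw [← h1, h2]

/-- Polynomials without common zeros generate the unit ideal. -/
theorem bez [IsAlgClosed k] {ι : Type} [Fintype ι] (L : ι → Polynomial k)
    (h : ∀ t, ∃ s, (L s).eval t ≠ 0) : ∃ B : ι → Polynomial k, ∑ s, B s * L s = 1 := by
  have htop : Ideal.span (Set.range L) = ⊤ := by
    by_contra hne
    obtain ⟨g, hg⟩ := (IsPrincipalIdealRing.principal (Ideal.span (Set.range L))).principal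
    rw [← Ideal.span] at hg
    have hg0 : g.degree ≠ 0 := by
      intro h0
      apply hne
      rw [hg, Ideal.span_singleton_eq_top]
      exact Polynomial.isUnit_iff_degree_eq_zero.2 h0
    obtain ⟨t, ht⟩ := IsAlgClosed.exists_root g hg0
    obtain ⟨s, hs⟩ := h t
    apply hs
    have h1 : L s ∈ Ideal.span {g} := by
      rw [← hg]
      exact Ideal.subset_span ⟨s, rfl⟩
    rw [Ideal.mem_span_singleton] at h1
    obtain ⟨q, hq⟩ := h1
    rw [hq, Polynomial.eval_mul, ht, zero_mul]
  have h1 : (1 : Polynomial k) ∈ Ideal.span (Set.range L) := by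
    rw [htop]
    trivial
  obtain ⟨B, hB⟩ := Ideal.mem_span_range_iff_exists_fun.1 h1
  exact ⟨B, hB⟩

end

end Pool.Agent.Y168.MC
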